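import Mathlib
import Pool.Agent.R632.FR.Main
import Pool.Agent.Y331.SS.Lim

/-!
Self-similar groups over infinite alphabets.
-/

set_option autoImplicit false

namespace Pool.Agent.R632.SI

open Pool.Agent.Y110.FJ
open Pool.Agent.Y462.SS (Closed Wr act)
open Pool.Agent.Y331.SS

variable {X Γ : Type} [Group Γ]

/-- The action on the first letters. -/
def top (ψ : Γ →* Wr X Γ) : Γ →* Equiv.Perm X where
  toFun γ := (ψ γ).p
  map_one' := by rw [map_one]; rfl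
  map_mul' a b := by rw [map_mul]; rfl

theorem C_Kn (ψ : Γ →* Wr X Γ) {C : ∀ (G : Type) [Group G], Prop} (hC : ClosedE C)
    (hΓ : C Γ) (hP : C (top ψ).range)
    (hfin : ∀ γ, (ψ γ).p = 1 → (Set.range (ψ γ).s).Finite) (n : ℕ) : C (Γ ⧸ Kn ψ n) := by
  induction n with
  | zero =>
    refine hC.base.of_injective (Γ ⧸ Kn ψ 0) Γ
      (QuotientGroup.lift (Kn ψ 0) (MonoidHom.id Γ) ?_) ?_ hΓ
    · intro x hx
      rw [Kn_zero, Subgroup.mem_bot] at hx
      exact hx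
    · rw [injective_iff_map_eq_one]
      intro a ha
      obtain ⟨y, rfl⟩ := QuotientGroup.mk_surjective a
      have h1 : y = 1 := ha
      rw [h1]
      rfl
  | succ n ih =>
    let Φ : (Γ ⧸ (phi ψ (Kn ψ n)).ker) →* Wr X (Γ ⧸ Kn ψ n) :=
      QuotientGroup.kerLift (phi ψ (Kn ψ n))
    have hΦ : Function.Injective Φ := QuotientGroup.kerLift_injective _
    let π : (Γ ⧸ (phi ψ (Kn ψ n)).ker) →* (top ψ).range :=
      QuotientGroup.lift _ (top ψ).rangeRestrict (by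
        intro γ hγ
        rw [mem_ker_phi] at hγ
        exact Subtype.ext hγ.1)
    show C (Γ ⧸ (phi ψ (Kn ψ n)).ker)
    refine Pool.Agent.R632.FR.fr hC ih π.ker ?_ Φ ?_
    · exact hC.base.of_injective _ _ (QuotientGroup.kerLift π)
        (QuotientGroup.kerLift_injective π) hP
    · intro x hx
      obtain ⟨γ, rfl⟩ := QuotientGroup.mk_surjective x
      have h1 : (ψ γ).p = 1 := congrArg Subtype.val hx
      refine ⟨h1, ?_, fun h => hΦ (h.trans (map_one Φ).symm)⟩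
      refine ((hfin γ h1).image (QuotientGroup.mk' (Kn ψ n))).subset ?_
      rintro _ ⟨y, rfl⟩
      exact ⟨(ψ γ).s y, ⟨y, rfl⟩, rfl⟩

theorem C_lim (ψ : Γ →* Wr X Γ) {C : ∀ (G : Type) [Group G], Prop} (hC : ClosedE C)
    (hΓ : C Γ) (hP : C (top ψ).range)
    (hfin : ∀ γ, (ψ γ).p = 1 → (Set.range (ψ γ).s).Finite)
    (K : Subgroup Γ) [K.Normal] (hK : ∀ γ, γ ∈ K ↔ ∃ n, γ ∈ Kn ψ n) : C (Γ ⧸ K) := by
  have hle : ∀ n, Kn ψ n ≤ K := fun n γ h => (hK γ).2 ⟨n, h⟩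
  refine hC.base.colim ℕ (fun i j => ⟨max i j, le_max_left i j, le_max_right i j⟩)
    (fun n => Γ ⧸ Kn ψ n)
    (fun i j h => QuotientGroup.map (Kn ψ i) (Kn ψ j) (MonoidHom.id Γ) (Kn_mono ψ h))
    (Γ ⧸ K) (fun i => QuotientGroup.map (Kn ψ i) K (MonoidHom.id Γ) (hle i)) ?_ ?_ ?_ ?_ ?_ ?_
  · intro i h x
    obtain ⟨y, rfl⟩ := QuotientGroup.mk_surjective x
    rfl
  · intro i j k h h' x
    obtain ⟨y, rfl⟩ := QuotientGroup.mk_surjective x
    rfl
  · intro i j h x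
    obtain ⟨y, rfl⟩ := QuotientGroup.mk_surjective x
    rfl
  · intro y
    obtain ⟨z, rfl⟩ := QuotientGroup.mk_surjective y
    exact ⟨0, QuotientGroup.mk z, rfl⟩
  · intro i x hx
    obtain ⟨y, rfl⟩ := QuotientGroup.mk_surjective x
    have h1 : ((y : Γ) : Γ ⧸ K) = 1 := hx
    have h2 : y ∈ K := (QuotientGroup.eq_one_iff _).1 h1
    obtain ⟨n, hn⟩ := (hK y).1 h2
    refine ⟨max i n, le_max_left i n, ?_⟩
    have h3 : y ∈ Kn ψ (max i n) := Kn_mono ψ (le_max_right i n) hn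
    exact (QuotientGroup.eq_one_iff _).2 h3
  · intro n
    exact C_Kn ψ hC hΓ hP hfin n

/-- The section of `γ` at the word `w`. -/
def sec (ψ : Γ →* Wr X Γ) : Γ → List X → Γ
  | γ, [] => γ
  | γ, x :: w => sec ψ ((ψ γ).s x) w

/-- `γ` acts trivially on the words over `X`. -/
def Trivially (ψ : Γ →* Wr X Γ) (γ : Γ) : Prop := ∀ w, act ψ γ w = w

/-- The recursion `ψ` is contracting to the set `T`: for each `γ` there is an `n` such that the
sections of `γ` at all words of length `n` are in `T`. -/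
def ContractsTo (ψ : Γ →* Wr X Γ) (T : Set Γ) : Prop :=
  ∀ γ, ∃ n, ∀ w : List X, w.length = n → sec ψ γ w ∈ T

theorem Trivially.step {ψ : Γ →* Wr X Γ} {γ : Γ} (h : Trivially ψ γ) :
    (ψ γ).p = 1 ∧ ∀ x, Trivially ψ ((ψ γ).s x) := by
  have key : ∀ x w, (ψ γ).p x = x ∧ act ψ ((ψ γ).s x) w = w := by
    intro x w
    have h1 : (ψ γ).p x :: act ψ ((ψ γ).s x) w = x :: w := h (x :: w)
    exact List.cons.inj h1
  refine ⟨?_, fun x w => (key x w).2⟩
  apply Equiv.ext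
  intro x
  exact (key x []).1

theorem mem_Kn_of (ψ : Γ →* Wr X Γ) (T : Set Γ) (hT : ∀ γ ∈ T, Trivially ψ γ → γ = 1) :
    ∀ (n : ℕ) (γ : Γ), Trivially ψ γ → (∀ w : List X, w.length = n → sec ψ γ w ∈ T) →
      γ ∈ Kn ψ n := by
  intro n
  induction n with
  | zero =>
    intro γ hγ h
    rw [Kn_zero, Subgroup.mem_bot]
    exact hT γ (h [] rfl) hγ
  | succ n ih =>
    intro γ hγ h
    rw [mem_Kn_succ]
    refine ⟨hγ.step.1, fun x => ih _ (hγ.step.2 x) fun w hw => ?_⟩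
    exact h (x :: w) (by rw [List.length_cons, hw])

theorem trivially_of_mem (ψ : Γ →* Wr X Γ) : ∀ (n : ℕ) (γ : Γ), γ ∈ Kn ψ n → Trivially ψ γ := by
  have h1 : ∀ w : List X, act ψ (1 : Γ) w = w := by
    intro w
    induction w with
    | nil => rfl
    | cons x w ih =>
      show (ψ 1).p x :: act ψ ((ψ 1).s x) w = x :: w
      rw [map_one]
      show x :: act ψ 1 w = x :: w
      rw [ih]
  intro n
  induction n with
  | zero =>
    intro γ hγ
    rw [Kn_zero, Subgroup.mem_bot] at hγ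
    rw [hγ]
    exact h1
  | succ n ih =>
    intro γ hγ w
    rw [mem_Kn_succ] at hγ
    cases w with
    | nil => rfl
    | cons x w =>
      show (ψ γ).p x :: act ψ ((ψ γ).s x) w = x :: w
      rw [hγ.1, ih _ (hγ.2 x) w]
      rfl

theorem C_act (ψ : Γ →* Wr X Γ) {C : ∀ (G : Type) [Group G], Prop} (hC : ClosedE C)
    (hΓ : C Γ) (hP : C (top ψ).range)
    (hfin : ∀ γ, (ψ γ).p = 1 → (Set.range (ψ γ).s).Finite) (T : Set Γ)
    (hT : ContractsTo ψ T) (hT' : ∀ γ ∈ T, Trivially ψ γ → γ = 1)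
    (K : Subgroup Γ) [K.Normal] (hK : ∀ γ, γ ∈ K ↔ Trivially ψ γ) : C (Γ ⧸ K) := by
  refine C_lim ψ hC hΓ hP hfin K ?_
  intro γ
  rw [hK]
  constructor
  · intro h
    obtain ⟨n, hn⟩ := hT γ
    exact ⟨n, mem_Kn_of ψ T hT' n γ h hn⟩
  · rintro ⟨n, hn⟩
    exact trivially_of_mem ψ n γ hn

end Pool.Agent.R632.SI
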