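import Mathlib
import Pool.Agent.R632.SI.Main
import Pool.Agent.Y179.SS.Free

/-!
The iterated monodromy groups of exponential maps.
-/

set_option autoImplicit false

namespace Pool.Agent.R632.SI

open Pool.Agent.Y110.FJ
open Pool.Agent.Y462.SS (Closed Wr act)

/-- The states: `inl j`, `j ≤ k`, before the period and `inr r` in the period. -/
abbrev St (k n : ℕ) : Type := Fin (k + 1) ⊕ ZMod n

section data

variable {k n : ℕ} (x : ℕ → ℤ) (y : ZMod n → ℤ)

/-- The section of the generator with label `i` at the letter `z`, if it is not trivial. -/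
def dl : St k n → ℤ → Option (St k n)
  | Sum.inl j, z => if h : 0 < j.val ∧ z = x (j.val - 1) then
      some (Sum.inl ⟨j.val - 1, by have := j.2; omega⟩) else none
  | Sum.inr r, z => if z = y r then some (Sum.inr (r - 1))
      else if r = 0 ∧ z = x k then some (Sum.inl ⟨k, by omega⟩) else none

theorem dl_inl (j : Fin (k + 1)) (z : ℤ) : dl x y (Sum.inl j : St k n) z =
    if h : 0 < j.val ∧ z = x (j.val - 1) then
      some (Sum.inl ⟨j.val - 1, by have := j.2; omega⟩) else none := rfl

theorem dl_inr (r : ZMod n) (z : ℤ) : dl x y (Sum.inr r : St k n) z =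
    if z = y r then some (Sum.inr (r - 1))
      else if r = 0 ∧ z = x k then some (Sum.inl ⟨k, by omega⟩) else none := rfl

/-- The kneading automaton of an exponential map as a wreath recursion over the alphabet `ℤ`. The
generator `inl 0` is the translation `z ↦ z + 1` of the letters, without sections; the generator
`inl j`, `0 < j ≤ k`, has the section `inl (j - 1)` at the letter `x (j - 1)`; the generator `inr r` has
the section `inr (r - 1)` at the letter `y r`, and `inr 0` has moreover the section `inl k` at `x k`. -/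
def kn : FreeGroup (St k n) →* Wr ℤ (FreeGroup (St k n)) :=
  FreeGroup.lift fun i =>
    ⟨fun z => match dl x y i z with
      | none => 1
      | some i' => FreeGroup.of i',
      if i = Sum.inl 0 then Equiv.addRight 1 else 1⟩

theorem kn_of_s (i : St k n) (z : ℤ) : (kn x y (FreeGroup.of i)).s z =
    match dl x y i z with
      | none => 1
      | some i' => FreeGroup.of i' := by
  unfold kn
  rw [FreeGroup.lift_apply_of]

theorem kn_of_p (i : St k n) (hi : i ≠ Sum.inl 0) : (kn x y (FreeGroup.of i)).p = 1 := by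
  unfold kn
  rw [FreeGroup.lift_apply_of]
  exact if_neg hi

theorem kn_of_p0 : (kn x y (FreeGroup.of (Sum.inl 0 : St k n))).p = Equiv.addRight 1 := by
  unfold kn
  rw [FreeGroup.lift_apply_of]
  show (if (Sum.inl 0 : St k n) = Sum.inl 0 then Equiv.addRight 1 else 1) = _
  exact if_pos rfl

theorem dl_zero (z : ℤ) : dl x y (Sum.inl 0 : St k n) z = none := by
  rw [dl_inl, dif_neg]
  intro h
  exact absurd h.1 (by simp)

theorem kn_s_none {i : St k n} {z : ℤ} (h : dl x y i z = none) :
    (kn x y (FreeGroup.of i)).s z = 1 := by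
  rw [kn_of_s, h]

theorem kn_s_some {i i' : St k n} {z : ℤ} (h : dl x y i z = some i') :
    (kn x y (FreeGroup.of i)).s z = FreeGroup.of i' := by
  rw [kn_of_s, h]

/-- a letter of a word -/
def lt (a : St k n × Bool) : FreeGroup (St k n) := FreeGroup.mk [a]

theorem lt_true (i : St k n) : lt (i, true) = FreeGroup.of i := rfl

theorem lt_false (i : St k n) : lt (i, false) = (FreeGroup.of i)⁻¹ := rfl

theorem mk_cons (a : St k n × Bool) (L : List (St k n × Bool)) :
    (FreeGroup.mk (a :: L) : FreeGroup (St k n)) = lt a * FreeGroup.mk L := by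
  unfold lt
  rw [FreeGroup.mul_mk]
  rfl

/-- sections of letters -/
theorem lt_s (a : St k n × Bool) (z : ℤ) :
    (kn x y (lt a)).s z = 1 ∨ (a.1 ≠ Sum.inl 0 ∧ ∃ i', dl x y a.1 z = some i' ∧
      (kn x y (lt a)).s z = lt (i', a.2)) := by
  obtain ⟨i, b⟩ := a
  by_cases hi : i = Sum.inl 0
  · left
    subst hi
    cases b with
    | true =>
      rw [lt_true]
      exact kn_s_none x y (dl_zero x y z)
    | false =>
      rw [lt_false, map_inv, Wr.inv_s, kn_s_none x y (dl_zero x y _), inv_one]
  · cases h : dl x y i z with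
    | none =>
      left
      cases b with
      | true =>
        rw [lt_true]
        exact kn_s_none x y h
      | false =>
        rw [lt_false, map_inv, Wr.inv_s, kn_of_p x y i hi, inv_one, Equiv.Perm.one_apply,
          kn_s_none x y h, inv_one]
    | some i' =>
      right
      refine ⟨hi, i', rfl, ?_⟩
      cases b with
      | true =>
        rw [lt_true, lt_true]
        exact kn_s_some x y h
      | false =>
        rw [lt_false, lt_false, map_inv, Wr.inv_s, kn_of_p x y i hi, inv_one,
          Equiv.Perm.one_apply, kn_s_some x y h]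

theorem lt_p {a : St k n × Bool} (ha : a.1 ≠ Sum.inl 0) : (kn x y (lt a)).p = 1 := by
  obtain ⟨i, b⟩ := a
  cases b with
  | true => exact kn_of_p x y i ha
  | false => rw [lt_false, map_inv, Wr.inv_p, kn_of_p x y i ha, inv_one]

theorem norm_lt (a : St k n × Bool) : (lt a).norm ≤ 1 := by
  have := FreeGroup.norm_mk_le (L₁ := [a])
  exact this

/-- sections are not longer than the word -/
theorem norm_sec_mk (L : List (St k n × Bool)) (z : ℤ) :
    ((kn x y (FreeGroup.mk L)).s z).norm ≤ L.length ∧
    (((kn x y (FreeGroup.mk L)).s z).norm = L.length →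
      (kn x y (FreeGroup.mk L)).p = 1 ∧
      ∃ L' : List (St k n × Bool), L'.length = L.length ∧
        (kn x y (FreeGroup.mk L)).s z = FreeGroup.mk L' ∧
        ∀ a ∈ L, ∃ i', dl x y a.1 z = some i' ∧ (i', a.2) ∈ L') := by
  induction L with
  | nil =>
    have h1 : (FreeGroup.mk ([] : List (St k n × Bool))) = 1 := rfl
    rw [h1, map_one]
    refine ⟨by simp, fun _ => ⟨rfl, [], rfl, rfl, ?_⟩⟩
    intro a ha
    exact absurd ha (by simp)
  | cons a L ih =>
    rw [mk_cons, map_mul, Wr.mul_s, List.length_cons]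
    have h1 := FreeGroup.norm_mul_le ((kn x y (lt a)).s ((kn x y (FreeGroup.mk L)).p z))
      ((kn x y (FreeGroup.mk L)).s z)
    have h2 : ((kn x y (lt a)).s ((kn x y (FreeGroup.mk L)).p z)).norm ≤ 1 := by
      rcases lt_s x y a ((kn x y (FreeGroup.mk L)).p z) with h | ⟨_, i', _, h⟩
      · rw [h, FreeGroup.norm_one]
        omega
      · rw [h]
        exact norm_lt _
    refine ⟨by omega, fun heq => ?_⟩
    have h3 : ((kn x y (FreeGroup.mk L)).s z).norm = L.length := by omega
    obtain ⟨hp, L', hL', hs, hal⟩ := ih.2 h3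
    rw [hp, Equiv.Perm.one_apply] at h2 heq h1
    rcases lt_s x y a z with h | ⟨hi, i', hi', h⟩
    · rw [h, one_mul] at heq
      omega
    · refine ⟨?_, (i', a.2) :: L', by rw [List.length_cons, hL'], ?_, ?_⟩
      · rw [Wr.mul_p, hp, lt_p x y hi, one_mul]
      · rw [hp, Equiv.Perm.one_apply, h, hs, mk_cons]
      · intro b hb
        rcases List.mem_cons.1 hb with rfl | hb
        · exact ⟨i', hi', List.mem_cons_self⟩
        · obtain ⟨j', hj', hmem⟩ := hal b hb
          exact ⟨j', hj', List.mem_cons_of_mem _ hmem⟩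

theorem norm_sec_le (v : FreeGroup (St k n)) (z : ℤ) : ((kn x y v).s z).norm ≤ v.norm := by
  have := (norm_sec_mk x y v.toWord z).1
  rw [FreeGroup.mk_toWord] at this
  exact this

theorem norm_sec_word (w : List ℤ) : ∀ v : FreeGroup (St k n),
    (sec (kn x y) v w).norm ≤ v.norm := by
  induction w with
  | nil => intro v; exact le_rfl
  | cons z w ih =>
    intro v
    exact (ih _).trans (norm_sec_le x y v z)

/-- the state has nontrivial sections along the word -/
def Alive : St k n → List ℤ → Prop
  | _, [] => True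
  | i, z :: w => ∃ i', dl x y i z = some i' ∧ Alive i' w

theorem alive_of (w : List ℤ) : ∀ L : List (St k n × Bool),
    (sec (kn x y) (FreeGroup.mk L) w).norm = L.length → ∀ a ∈ L, Alive x y a.1 w := by
  induction w with
  | nil => intro L _ a _; exact trivial
  | cons z w ih =>
    intro L h a ha
    have h0 : (sec (kn x y) ((kn x y (FreeGroup.mk L)).s z) w).norm = L.length := h
    have h1 := norm_sec_word x y w ((kn x y (FreeGroup.mk L)).s z)
    have h2 := (norm_sec_mk x y L z).1
    obtain ⟨_, L', hL', hs, hal⟩ := (norm_sec_mk x y L z).2 (by omega)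
    obtain ⟨i', hi', hmem⟩ := hal a ha
    rw [hs, ← hL'] at h0
    exact ⟨i', hi', ih L' h0 _ hmem⟩

theorem alive_inl (w : List ℤ) : ∀ j : Fin (k + 1), Alive x y (Sum.inl j : St k n) w →
    w.length ≤ j.val := by
  induction w with
  | nil => intro j _; exact Nat.zero_le _
  | cons z w ih =>
    rintro j ⟨i', hi', h⟩
    rw [dl_inl] at hi'
    split_ifs at hi' with hj
    rw [Option.some.injEq] at hi'
    subst hi'
    have := ih _ h
    simp only at this
    rw [List.length_cons]
    omega

theorem alive_inr (w : List ℤ) : ∀ (r : ZMod n) (s : ℕ), Alive x y (Sum.inr r : St k n) w →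
    s + (k + 1) ≤ w.length → ∀ t < s, w[t]? = some (y (r - t)) := by
  induction w with
  | nil =>
    intro r s _ hs
    rw [List.length_nil] at hs
    omega
  | cons z w ih =>
    rintro r s ⟨i', hi', h⟩ hs t ht
    rw [List.length_cons] at hs
    rw [dl_inr] at hi'
    split_ifs at hi' with h1 h2
    · rw [Option.some.injEq] at hi'
      subst hi'
      cases t with
      | zero =>
        rw [List.getElem?_cons_zero, h1, Nat.cast_zero, sub_zero]
      | succ t =>
        rw [List.getElem?_cons_succ]
        have := ih (r - 1) (s - 1) h (by omega) t (by omega)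
        rw [this]
        congr 2
        push_cast
        ring
    · rw [Option.some.injEq] at hi'
      subst hi'
      have := alive_inl x y w _ h
      simp only at this
      omega

/-- powers of the generators -/
def Pw (k n : ℕ) : Set (FreeGroup (St k n)) := {v | ∃ (i : St k n) (e : ℤ), v = FreeGroup.of i ^ e}

theorem Pw_one : (1 : FreeGroup (St k n)) ∈ Pw k n := ⟨Sum.inl 0, 0, (zpow_zero _).symm⟩

theorem mk_mem_Pw (i : St k n) (L : List (St k n × Bool)) (h : ∀ a ∈ L, a.1 = i) :
    (FreeGroup.mk L : FreeGroup (St k n)) ∈ Subgroup.zpowers (FreeGroup.of i) := by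
  induction L with
  | nil => exact one_mem _
  | cons a L ih =>
    rw [mk_cons]
    refine mul_mem ?_ (ih fun b hb => h b (List.mem_cons_of_mem _ hb))
    have ha := h a List.mem_cons_self
    obtain ⟨j, b⟩ := a
    simp only at ha
    subst ha
    cases b with
    | true => exact Subgroup.mem_zpowers _
    | false => exact inv_mem (Subgroup.mem_zpowers _)

/-- a word that does not become shorter is a power of a generator -/
theorem const_norm [NeZero n] (hy : ∀ d : ZMod n, d ≠ 0 → ∃ r, y (r + d) ≠ y r)
    (v : FreeGroup (St k n)) (w : List ℤ) (hw : n + (k + 1) ≤ w.length)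
    (h : (sec (kn x y) v w).norm = v.norm) : v ∈ Pw k n := by
  have h1 : ∀ a ∈ v.toWord, Alive x y a.1 w := by
    refine alive_of x y w v.toWord ?_
    rw [FreeGroup.mk_toWord]
    exact h
  have h2 : ∀ a ∈ v.toWord, ∃ r : ZMod n, a.1 = Sum.inr r := by
    intro a ha
    have h3 := h1 a ha
    cases ha1 : a.1 with
    | inl j =>
      rw [ha1] at h3
      have := alive_inl x y w j h3
      have := j.2
      omega
    | inr r => exact ⟨r, rfl⟩
  have h3 : ∀ a ∈ v.toWord, ∀ b ∈ v.toWord, a.1 = b.1 := by
    intro a ha b hb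
    obtain ⟨r, hr⟩ := h2 a ha
    obtain ⟨r', hr'⟩ := h2 b hb
    have ha' := h1 a ha
    have hb' := h1 b hb
    rw [hr] at ha'
    rw [hr'] at hb'
    rw [hr, hr']
    congr 1
    by_contra hne
    obtain ⟨s, hs⟩ := hy (r - r') (sub_ne_zero.2 hne)
    apply hs
    have e1 := alive_inr x y w r n ha' hw (r' - s).val (ZMod.val_lt _)
    have e2 := alive_inr x y w r' n hb' hw (r' - s).val (ZMod.val_lt _)
    rw [ZMod.natCast_zmod_val] at e1 e2
    rw [e1, Option.some.injEq] at e2
    have e3 : r - (r' - s) = s + (r - r') := by ring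
    have e4 : r' - (r' - s) = s := by ring
    rw [e3, e4] at e2
    exact e2
  rw [← FreeGroup.mk_toWord (x := v)]
  cases hv : v.toWord with
  | nil => exact Pw_one
  | cons a L =>
    have h4 : ∀ b ∈ (a :: L), b.1 = a.1 := by
      intro b hb
      rw [← hv] at hb
      exact h3 b hb a (by rw [hv]; exact List.mem_cons_self)
    obtain ⟨e, he⟩ := mk_mem_Pw a.1 (a :: L) h4
    exact ⟨a.1, e, he.symm⟩

theorem kn_zpow_s {i : St k n} (hi : i ≠ Sum.inl 0) (z : ℤ) (e : ℤ) :
    (kn x y (FreeGroup.of i ^ e)).s z = ((kn x y (FreeGroup.of i)).s z) ^ e := by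
  have hp := kn_of_p x y i hi
  have key : ∀ m : ℕ, (kn x y (FreeGroup.of i ^ m)).s z = ((kn x y (FreeGroup.of i)).s z) ^ m ∧
      (kn x y (FreeGroup.of i ^ m)).p = 1 := by
    intro m
    induction m with
    | zero => simp
    | succ m ih =>
      rw [pow_succ, map_mul, Wr.mul_s, Wr.mul_p, hp, ih.2, Equiv.Perm.one_apply, ih.1, pow_succ]
      exact ⟨rfl, one_mul _⟩
  obtain ⟨m, rfl | rfl⟩ := Int.eq_nat_or_neg e
  · rw [zpow_natCast, zpow_natCast]
    exact (key m).1
  · rw [zpow_neg, zpow_neg, zpow_natCast, zpow_natCast, map_inv, Wr.inv_s, (key m).2, inv_one,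
      Equiv.Perm.one_apply, (key m).1]

theorem kn_zpow_p {i : St k n} (hi : i ≠ Sum.inl 0) (e : ℤ) :
    (kn x y (FreeGroup.of i ^ e)).p = 1 := by
  have h : top (kn x y) (FreeGroup.of i ^ e) = 1 := by
    rw [map_zpow]
    have : top (kn x y) (FreeGroup.of i) = 1 := kn_of_p x y i hi
    rw [this, one_zpow]
  exact h

theorem kn_zero_s (z : ℤ) (e : ℤ) :
    (kn x y (FreeGroup.of (Sum.inl 0 : St k n) ^ e)).s z = 1 := by
  have h1 : ∀ z, (kn x y (FreeGroup.of (Sum.inl 0 : St k n))).s z = 1 := fun z =>
    kn_s_none x y (dl_zero x y z)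
  have key : ∀ m : ℕ, ∀ z, (kn x y (FreeGroup.of (Sum.inl 0 : St k n) ^ m)).s z = 1 := by
    intro m
    induction m with
    | zero => intro z; simp
    | succ m ih =>
      intro z
      rw [pow_succ, map_mul, Wr.mul_s, h1, ih, one_mul]
  obtain ⟨m, rfl | rfl⟩ := Int.eq_nat_or_neg e
  · rw [zpow_natCast]
    exact key m z
  · rw [zpow_neg, zpow_natCast, map_inv, Wr.inv_s, key m, inv_one]

theorem Pw_sec {v : FreeGroup (St k n)} (hv : v ∈ Pw k n) (z : ℤ) : (kn x y v).s z ∈ Pw k n := by
  obtain ⟨i, e, rfl⟩ := hv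
  by_cases hi : i = Sum.inl 0
  · subst hi
    rw [kn_zero_s]
    exact Pw_one
  · rw [kn_zpow_s x y hi]
    cases h : dl x y i z with
    | none =>
      rw [kn_s_none x y h, one_zpow]
      exact Pw_one
    | some i' =>
      rw [kn_s_some x y h]
      exact ⟨i', e, rfl⟩

theorem Pw_sec_word (w : List ℤ) : ∀ v : FreeGroup (St k n), v ∈ Pw k n →
    sec (kn x y) v w ∈ Pw k n := by
  induction w with
  | nil => intro v hv; exact hv
  | cons z w ih => intro v hv; exact ih _ (Pw_sec x y hv z)

theorem sec_append {X Γ : Type} [Group Γ] (ψ : Γ →* Wr X Γ) (w w' : List X) : ∀ v : Γ,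
    sec ψ v (w ++ w') = sec ψ (sec ψ v w) w' := by
  induction w with
  | nil => intro v; rfl
  | cons z w ih => intro v; exact ih _

theorem contracts [NeZero n] (hy : ∀ d : ZMod n, d ≠ 0 → ∃ r, y (r + d) ≠ y r) :
    ContractsTo (kn (k := k) x y) (Pw k n) := by
  have key : ∀ (l : ℕ) (v : FreeGroup (St k n)), v.norm ≤ l →
      ∀ w : List ℤ, w.length = (n + (k + 1)) * l → sec (kn x y) v w ∈ Pw k n := by
    intro l
    induction l with
    | zero =>
      intro v hv w _
      have : v = 1 := FreeGroup.norm_eq_zero.1 (by omega)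
      subst this
      exact Pw_sec_word x y w 1 Pw_one
    | succ l ih =>
      intro v hv w hw
      have hsplit : w = w.take (n + (k + 1)) ++ w.drop (n + (k + 1)) :=
        (List.take_append_drop _ _).symm
      have hlen : (w.take (n + (k + 1))).length = n + (k + 1) := by
        rw [List.length_take, hw, Nat.mul_succ]
        omega
      have hlen' : (w.drop (n + (k + 1))).length = (n + (k + 1)) * l := by
        rw [List.length_drop, hw, Nat.mul_succ]
        omega
      rw [hsplit, sec_append]
      by_cases hc : (sec (kn x y) v (w.take (n + (k + 1)))).norm = v.norm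
      · have := const_norm x y hy v (w.take (n + (k + 1))) (by omega) hc
        exact Pw_sec_word x y _ _ (Pw_sec_word x y _ _ this)
      · have h1 := norm_sec_word x y (w.take (n + (k + 1))) v
        exact ih _ (by omega) _ hlen'
  intro v
  exact ⟨_, key v.norm v le_rfl⟩

theorem trivially_inl (j : ℕ) : ∀ (hj : j < k + 1) (e : ℤ),
    Trivially (kn x y) (FreeGroup.of (Sum.inl ⟨j, hj⟩ : St k n) ^ e) → e = 0 := by
  induction j with
  | zero =>
    intro hj e h
    have h1 := h.step.1
    have h2 : top (kn x y) (FreeGroup.of (Sum.inl ⟨0, hj⟩ : St k n) ^ e) = 1 := h1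
    rw [map_zpow] at h2
    have h3 : top (kn x y) (FreeGroup.of (Sum.inl ⟨0, hj⟩ : St k n)) = Equiv.addRight 1 :=
      kn_of_p0 x y
    rw [h3] at h2
    have hn : ∀ (m : ℕ) (z : ℤ), ((Equiv.addRight (1 : ℤ)) ^ m) z = z + m := by
      intro m
      induction m with
      | zero => intro z; simp
      | succ m ihm =>
        intro z
        rw [pow_succ, Equiv.Perm.mul_apply, ihm, Equiv.coe_addRight]
        push_cast
        ring
    obtain ⟨m, rfl | rfl⟩ := Int.eq_nat_or_neg e
    · rw [zpow_natCast] at h2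
      have h5 := hn m 0
      rw [h2, Equiv.Perm.one_apply] at h5
      omega
    · rw [zpow_neg, zpow_natCast, inv_eq_one] at h2
      have h5 := hn m 0
      rw [h2, Equiv.Perm.one_apply] at h5
      omega
  | succ j ih =>
    intro hj e h
    have hne : (Sum.inl ⟨j + 1, hj⟩ : St k n) ≠ Sum.inl 0 := by
      intro h1
      have := congrArg Fin.val (Sum.inl.inj h1)
      simp at this
    have h1 := h.step.2 (x j)
    rw [kn_zpow_s x y hne] at h1
    have h2 : dl x y (Sum.inl ⟨j + 1, hj⟩ : St k n) (x j) = some (Sum.inl ⟨j, by omega⟩) := by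
      rw [dl_inl, dif_pos]
      · rfl
      · exact ⟨by simp, rfl⟩
    rw [kn_s_some x y h2] at h1
    exact ih _ e h1

theorem trivially_inr [NeZero n] (hx : x k ≠ y 0) (m : ℕ) : ∀ e : ℤ,
    Trivially (kn x y) (FreeGroup.of (Sum.inr (m : ZMod n) : St k n) ^ e) → e = 0 := by
  induction m with
  | zero =>
    intro e h
    have h1 := h.step.2 (x k)
    rw [kn_zpow_s x y (by simp)] at h1
    have h2 : dl x y (Sum.inr ((0 : ℕ) : ZMod n) : St k n) (x k) =
        some (Sum.inl ⟨k, by omega⟩) := by
      rw [dl_inr, Nat.cast_zero, if_neg hx, if_pos ⟨rfl, rfl⟩]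
    rw [kn_s_some x y h2] at h1
    exact trivially_inl x y k (by omega) e h1
  | succ m ih =>
    intro e h
    have h1 := h.step.2 (y ((m + 1 : ℕ) : ZMod n))
    rw [kn_zpow_s x y (by simp)] at h1
    have h2 : dl x y (Sum.inr ((m + 1 : ℕ) : ZMod n) : St k n) (y ((m + 1 : ℕ) : ZMod n)) =
        some (Sum.inr (m : ZMod n)) := by
      rw [dl_inr, if_pos rfl]
      congr 2
      push_cast
      ring
    rw [kn_s_some x y h2] at h1
    exact ih e h1

theorem faithful [NeZero n] (hx : x k ≠ y 0) : ∀ v ∈ Pw k n, Trivially (kn x y) v → v = 1 := by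
  rintro v ⟨i, e, rfl⟩ h
  have : e = 0 := by
    cases i with
    | inl j => exact trivially_inl x y j.val j.2 e h
    | inr r =>
      refine trivially_inr x y hx r.val e ?_
      rw [ZMod.natCast_zmod_val]
      exact h
  rw [this, zpow_zero]

theorem kn_fin [NeZero n] (v : FreeGroup (St k n)) : (Set.range (kn x y v).s).Finite := by
  induction v using FreeGroup.induction_on with
  | C1 =>
    rw [map_one]
    refine (Set.finite_singleton 1).subset ?_
    rintro _ ⟨z, rfl⟩
    rfl
  | of i =>
    refine ((Set.finite_range (FreeGroup.of : St k n → FreeGroup (St k n))).union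
      (Set.finite_singleton 1)).subset ?_
    rintro _ ⟨z, rfl⟩
    cases h : dl x y i z with
    | none =>
      right
      exact kn_s_none x y h
    | some i' =>
      left
      exact ⟨i', (kn_s_some x y h).symm⟩
  | inv_of i ih =>
    rw [map_inv]
    refine (ih.inv).subset ?_
    rintro _ ⟨z, rfl⟩
    rw [Set.mem_inv, Wr.inv_s, inv_inv]
    exact ⟨_, rfl⟩
  | mul a b iha ihb =>
    rw [map_mul]
    refine (iha.mul ihb).subset ?_
    rintro _ ⟨z, rfl⟩
    rw [Wr.mul_s]
    exact Set.mul_mem_mul ⟨_, rfl⟩ ⟨_, rfl⟩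

theorem top_add (v : FreeGroup (St k n)) : ∀ z : ℤ, (kn x y v).p z = z + (kn x y v).p 0 := by
  induction v using FreeGroup.induction_on with
  | C1 =>
    intro z
    rw [map_one]
    show z = z + 0
    rw [add_zero]
  | of i =>
    intro z
    by_cases hi : i = Sum.inl 0
    · subst hi
      rw [kn_of_p0, Equiv.coe_addRight]
      ring
    · rw [kn_of_p x y i hi]
      show z = z + 0
      rw [add_zero]
  | inv_of i ih =>
    intro z
    have h1 : ∀ z, (kn x y (FreeGroup.of i)⁻¹).p z = z - (kn x y (FreeGroup.of i)).p 0 := by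
      intro z
      rw [map_inv, Wr.inv_p, Equiv.Perm.inv_eq_iff_eq, ih]
      ring
    rw [h1, h1]
    ring
  | mul a b iha ihb =>
    intro z
    rw [map_mul, Wr.mul_p, Equiv.Perm.mul_apply, Equiv.Perm.mul_apply, ihb z, iha, iha (_)]
    rw [iha ((kn x y b).p 0)]
    ring

theorem C_top {C : ∀ (G : Type) [Group G], Prop} (hC : ClosedE C) :
    C (top (kn (k := k) x y)).range := by
  let f : (top (kn (k := k) x y)).range →* Multiplicative ℤ :=
    { toFun := fun σ => Multiplicative.ofAdd (σ.1 0)
      map_one' := rfl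
      map_mul' := by
        rintro ⟨_, a, rfl⟩ ⟨_, b, rfl⟩
        rw [← ofAdd_add]
        congr 1
        show (kn x y a).p ((kn x y b).p 0) = (kn x y a).p 0 + (kn x y b).p 0
        rw [top_add, add_comm] }
  refine hC.base.of_injective _ _ f ?_ hC.base.int
  rintro ⟨_, a, rfl⟩ ⟨_, b, rfl⟩ h
  have h0 : (kn x y a).p 0 = (kn x y b).p 0 := congrArg Multiplicative.toAdd h
  apply Subtype.ext
  apply Equiv.ext
  intro z
  show (kn x y a).p z = (kn x y b).p z
  rw [top_add, top_add x y b, h0]

end data

/-- **The iterated monodromy groups of exponential maps.** -/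
theorem C_exp {C : ∀ (G : Type) [Group G], Prop} (hC : ClosedE C) (k n : ℕ) [NeZero n]
    (x : ℕ → ℤ) (y : ZMod n → ℤ) (hx : x k ≠ y 0)
    (hy : ∀ d : ZMod n, d ≠ 0 → ∃ r, y (r + d) ≠ y r) (K : Subgroup (FreeGroup (St k n)))
    [K.Normal] (hK : ∀ v, v ∈ K ↔ Trivially (kn x y) v) : C (FreeGroup (St k n) ⧸ K) :=
  C_act (kn x y) hC (Pool.Agent.Y179.SS.t_free C hC.base _) (C_top x y hC)
    (fun v _ => kn_fin x y v) (Pw k n) (contracts x y hy) (faithful x y hx) K hK

end Pool.Agent.R632.SI
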